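import Pool.Agent.Q146.RI.Ser
import Pool.Agent.H582R5.RP.A1
import Pool.Agent.H582R5.RP.A2
import Pool.Agent.H582R5.RP.C

/-!
# Hankel matrices of the numbers `(1 - 4^m) B_{2m} / (2m)!`, `m` in a residue class, modulo `p`
-/

set_option autoImplicit false

open Finset PowerSeries

namespace Pool.Agent.Q146.RI

open Pool.Agent.H582R5.RP

lemma SS_zero_eval {K : Type} [Field K] (i n : ℕ) :
    SS i (0 : K) n = if i = n then (n.factorial : K) else 0 := by
  unfold SS
  rcases Nat.lt_trichotomy i n with h | h | h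
  · rw [zero_pow (by omega), mul_zero, if_neg (by omega)]
  · subst h
    rw [if_pos rfl, Nat.sub_self, pow_zero, mul_one, Nat.descFactorial_self]
  · rw [Nat.descFactorial_of_lt h, if_neg (by omega)]
    simp

/-- the zero estimate -/
theorem zero_of (p : ℕ) [Fact p.Prime] (K : Type) [Field K] [CharP K p] [Algebra (ZMod p) K]
    (eta : K) (d r D M : ℕ) (hM : 2 ^ d * (D + 1) ≤ M) (hMp : M + 1 ≤ p)
    (h3 : ∀ J : Finset ℕ, J ⊆ range d → J.Nonempty → ∑ j ∈ J, eta ^ j ≠ 0)
    (V : PowerSeries K) (hV : ∀ m, D < m → coeff m (X * V) = 0)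
    (hvan : ∀ n, D < n → n < M → coeff n (V * GG p eta d r) = 0) (n : ℕ) (hn : n ≤ D) :
    coeff n (V * GG p eta d r) =
      (∑ j ∈ range d, eta ^ ((2 * r + 1) * j)) * coeff n (X * V) := by
  classical
  set a : ℕ → K := fun i => coeff i (V * GG p eta d r) with ha
  set b : ℕ → K := fun i => coeff i (X * V) with hb
  have hZ := qm_FF (K := K) p M hMp eta d r D V hV hvan
  rw [← map_zero (qm K M), qm_eq_iff] at hZ
  set L : Finset K := ((range d).powerset.erase ∅).image (lam eta) with hL
  have h0L : (0 : K) ∉ L := by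
    rw [hL, Finset.mem_image]
    rintro ⟨J, hJ, hJ0⟩
    rw [Finset.mem_erase, Finset.mem_powerset] at hJ
    exact h3 J hJ.2 (Finset.nonempty_iff_ne_empty.mpr hJ.1) hJ0
  have hcard : L.card + 1 ≤ 2 ^ d := by
    have hh : L.card ≤ ((range d).powerset.erase ∅).card := Finset.card_image_le
    rw [Finset.card_erase_of_mem (by simp), Finset.card_powerset, Finset.card_range] at hh
    have : 1 ≤ 2 ^ d := Nat.one_le_two_pow
    omega
  have hkill : ∀ J : Finset ℕ, J ⊆ range d → J ≠ ∅ → ∀ i, i ≤ D →
      (Polynomial.aeval (shift K) (PL L D)) (SS i (lam eta J)) = 0 := by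
    intro J hJ hJ0 i hi
    refine a1 K L D i _ ?_ hi
    rw [hL, Finset.mem_image]
    exact ⟨J, by rw [Finset.mem_erase, Finset.mem_powerset]; exact ⟨hJ0, hJ⟩, rfl⟩
  have hy : (Polynomial.aeval (shift K) (PL L D)) (yy eta d r D a b) = 0 := by
    rw [yy, map_sub, map_sum, map_sum]
    rw [Finset.sum_eq_zero, Finset.sum_eq_zero, sub_zero]
    · intro j hj
      rw [map_smul, map_sum, Finset.sum_eq_zero, smul_zero]
      intro J hJ
      rw [Finset.mem_erase, Finset.mem_powerset] at hJ
      rw [map_sum, Finset.sum_eq_zero]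
      intro i hi
      rw [Finset.mem_range] at hi
      rw [map_smul, hkill J (hJ.2.trans (Finset.erase_subset _ _)) hJ.1 i (by omega), smul_zero]
    · intro J hJ
      rw [Finset.mem_erase, Finset.mem_powerset] at hJ
      rw [map_sum, Finset.sum_eq_zero]
      intro i hi
      rw [Finset.mem_range] at hi
      rw [map_smul, hkill J hJ.2 hJ.1 i (by omega), smul_zero]
  have hzeval : ∀ m, zz eta d r D a b m = if m ≤ D then (m.factorial : K) *
      (a m - (∑ j ∈ range d, eta ^ (2 * r * j) * eta ^ j) * b m) else 0 := by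
    intro m
    rw [zz]
    simp only [Pi.sub_apply, Pi.smul_apply, Finset.sum_apply, smul_eq_mul, SS_zero_eval, mul_ite,
      mul_zero]
    rw [Finset.sum_ite_eq' (range (D + 1)) m, Finset.sum_ite_eq' (range (D + 1)) m]
    simp only [Finset.mem_range, Nat.lt_succ_iff]
    split_ifs with h
    · rw [← Finset.sum_mul]
      ring
    · simp
  have hz : ∀ m, D < m → zz eta d r D a b m = 0 := by
    intro m hm
    rw [hzeval, if_neg (by omega)]
  have hDM : D + 1 ≤ M := by
    have : 1 * (D + 1) ≤ 2 ^ d * (D + 1) := Nat.mul_le_mul_right _ Nat.one_le_two_pow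
    omega
  have hzy : ∀ m, m < (L.card + 1) * (D + 1) → zz eta d r D a b m + yy eta d r D a b m = 0 := by
    intro m hm
    have hmM : m < M := lt_of_lt_of_le hm ((Nat.mul_le_mul_right _ hcard).trans hM)
    rw [← fact_FF p eta d r D a b m (by omega), hZ m hmM, map_zero, mul_zero]
  have hfin := a2 K L D (yy eta d r D a b) (zz eta d r D a b) h0L hy hz hzy
  have h1 := congrFun hfin n
  rw [hzeval, if_pos hn, Pi.zero_apply] at h1
  have h2 := (mul_eq_zero.1 h1).resolve_left (fact_ne (K := K) p (by omega))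
  have h4 : ∑ j ∈ range d, eta ^ (2 * r * j) * eta ^ j = ∑ j ∈ range d, eta ^ ((2 * r + 1) * j) := by
    refine Finset.sum_congr rfl (fun j _ => ?_)
    rw [← pow_add]; congr 1; ring
  rw [h4] at h2
  exact sub_eq_zero.1 h2

lemma coeff_V_mul {K : Type} [Field K] (n d : ℕ) (v : ℕ → K) (G : PowerSeries K) (m : ℕ) :
    coeff m ((∑ j ∈ range n, C (v j) * X ^ (2 * (d * (n - 1 - j)))) * G) =
      ∑ j ∈ range n, v j * (if 2 * (d * (n - 1 - j)) ≤ m then
        coeff (m - 2 * (d * (n - 1 - j))) G else 0) := by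
  rw [Finset.sum_mul, map_sum]
  refine Finset.sum_congr rfl fun j _ => ?_
  rw [mul_assoc, coeff_C_mul, coeff_X_pow_mul']

/-- **The columns of the matrix are independent.** -/
theorem kernel (p : ℕ) [Fact p.Prime] (K : Type) [Field K] [CharP K p] [Algebra (ZMod p) K]
    (eta : K) (d r n R t D : ℕ) (hd : 1 ≤ d) (hn : 1 ≤ n) (hdr : d ∣ t + r)
    (h1 : eta ^ d = -1)
    (h2 : ∀ k : ℕ, ∑ j ∈ range d, eta ^ (2 * k * j) = if d ∣ k then (d : K) else 0)
    (h3 : ∀ J : Finset ℕ, J ⊆ range d → J.Nonempty → ∑ j ∈ J, eta ^ j ≠ 0)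
    (hD1 : 2 * (d * (n - 1)) + 1 ≤ D) (hD2 : 2 * (d * (n - 1)) + 2 * t ≤ D + 2 * d)
    (hM : 2 ^ d * (D + 1) ≤ 2 * (d * (n - 1 + R) + t))
    (hMp : 2 * (d * (n - 1 + R) + t) + 1 ≤ p) (v : ℕ → K)
    (hv : ∀ i < R, ∑ j ∈ range n, v j * algebraMap (ZMod p) K
      ((1 - 2 ^ (2 * (d * (i + j) + t))) * Pool.Agent.H332R2.cc p (2 * (d * (i + j) + t))) = 0)
    (j : ℕ) (hj : j < n) : v j = 0 := by
  classical
  have h2d : 2 ≤ 2 ^ d := by
    calc 2 = 2 ^ 1 := by norm_num
      _ ≤ 2 ^ d := Nat.pow_le_pow_right (by norm_num) hd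
  have hp3 : 3 ≤ p := by
    have : 2 * (1 + 1) ≤ 2 ^ d * (D + 1) := Nat.mul_le_mul h2d (by omega)
    omega
  set V : PowerSeries K := ∑ j ∈ range n, C (v j) * X ^ (2 * (d * (n - 1 - j))) with hVdef
  have hle : ∀ j, 2 * (d * (n - 1 - j)) ≤ 2 * (d * (n - 1)) := fun j =>
    Nat.mul_le_mul_left _ (Nat.mul_le_mul_left _ (Nat.sub_le _ _))
  -- odd coefficients of the section
  have hodd : ∀ s, 1 ≤ s → coeff (2 * s + 1) (GG p eta d r) = 0 := by
    intro s hs
    have hb : bernoulli (2 * s + 1) = 0 := bernoulli_eq_zero_of_odd ⟨s, rfl⟩ (by omega)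
    rw [coeff_GG]
    unfold Pool.Agent.H332R2.cc
    rw [hb]
    simp
  have heven : ∀ s, coeff (2 * s) (GG p eta d r) = (if d ∣ r + s then (d : K) else 0) *
      algebraMap (ZMod p) K ((1 - 2 ^ (2 * s)) * Pool.Agent.H332R2.cc p (2 * s)) := by
    intro s
    rw [coeff_GG, ← h2 (r + s)]
    congr 1
    refine Finset.sum_congr rfl (fun j _ => ?_)
    congr 1; ring
  have hVX : ∀ m, D < m → coeff m (X * V) = 0 := by
    intro m hm
    obtain ⟨m', rfl⟩ : ∃ m', m = m' + 1 := ⟨m - 1, by omega⟩
    rw [coeff_succ_X_mul]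
    have := coeff_V_mul n d v 1 m'
    rw [mul_one] at this
    rw [hVdef, this]
    refine Finset.sum_eq_zero fun i _ => ?_
    have := hle i
    split_ifs with h
    · rw [coeff_one, if_neg (by omega), mul_zero]
    · rw [mul_zero]
  have hvan : ∀ m, D < m → m < 2 * (d * (n - 1 + R) + t) → coeff m (V * GG p eta d r) = 0 := by
    intro m hm1 hm2
    rw [hVdef, coeff_V_mul]
    rcases Nat.even_or_odd' m with ⟨s, hs | hs⟩
    · -- even
      by_cases hds : d ∣ r + s
      · -- the class
        have hdst : (d : ℤ) ∣ (s : ℤ) - t := by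
          have e1 : (d : ℤ) ∣ ((r + s : ℕ) : ℤ) := by exact_mod_cast hds
          have e2 : (d : ℤ) ∣ ((t + r : ℕ) : ℤ) := by exact_mod_cast hdr
          have := dvd_sub e1 e2
          push_cast at this
          have e : (r : ℤ) + s - (t + r) = s - t := by ring
          rwa [e] at this
        obtain ⟨q, hq⟩ := hdst
        have hd0 : (0 : ℤ) < d := by exact_mod_cast hd
        have hq1 : ((n - 1 : ℕ) : ℤ) ≤ q := by
          by_contra hlt
          rw [not_le] at hlt
          have h4 : (d : ℤ) * q ≤ d * (((n - 1 : ℕ) : ℤ) - 1) :=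
            mul_le_mul_of_nonneg_left (by omega) hd0.le
          have h5 : (2 : ℤ) * (d * ((n - 1 : ℕ) : ℤ)) + 2 * t ≤ D + 2 * d := by exact_mod_cast hD2
          have h6 : ((m : ℕ) : ℤ) = 2 * s := by exact_mod_cast hs
          have h7 : (D : ℤ) < m := by exact_mod_cast hm1
          nlinarith
        obtain ⟨i, hi⟩ : ∃ i : ℕ, q = ((n - 1 : ℕ) : ℤ) + i := ⟨(q - ((n - 1 : ℕ) : ℤ)).toNat, by omega⟩
        have hsi : s = d * (n - 1) + d * i + t := by
          have : (s : ℤ) = d * ((n - 1 : ℕ) : ℤ) + d * i + t := by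
            have := hq
            rw [hi] at this
            linarith [this, mul_add (d : ℤ) ((n - 1 : ℕ) : ℤ) i]
          exact_mod_cast this
        have hiR : i < R := by
          by_contra hge
          rw [not_lt] at hge
          have h4 : d * R ≤ d * i := Nat.mul_le_mul_left _ hge
          have h5 : d * (n - 1 + R) = d * (n - 1) + d * R := by ring
          omega
        have hterm : ∀ j ∈ range n, v j * (if 2 * (d * (n - 1 - j)) ≤ m then
            coeff (m - 2 * (d * (n - 1 - j))) (GG p eta d r) else 0) =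
            (d : K) * (v j * algebraMap (ZMod p) K
      ((1 - 2 ^ (2 * (d * (i + j) + t))) * Pool.Agent.H332R2.cc p (2 * (d * (i + j) + t)))) := by
          intro j hj
          rw [Finset.mem_range] at hj
          have h4 := hle j
          have h5 : d * (n - 1) = d * (n - 1 - j) + d * j := by
            rw [← mul_add]; congr 1; omega
          have h6 : m - 2 * (d * (n - 1 - j)) = 2 * (d * (i + j) + t) := by
            rw [hs, hsi, h5, mul_add d i j]; omega
          rw [if_pos (by omega), h6, heven, if_pos]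
          · ring
          · have e1 : d ∣ d * (i + j) := Dvd.intro _ rfl
            have e2 := (Nat.dvd_add_right e1).2 hdr
            have e3 : d * (i + j) + (t + r) = r + (d * (i + j) + t) := by ring
            rwa [e3] at e2
        rw [Finset.sum_congr rfl hterm, ← Finset.mul_sum, hv i hiR, mul_zero]
      · refine Finset.sum_eq_zero fun j hj => ?_
        rw [Finset.mem_range] at hj
        have h4 := hle j
        have h6 : m - 2 * (d * (n - 1 - j)) = 2 * (s - d * (n - 1 - j)) := by omega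
        rw [if_pos (by omega), h6, heven, if_neg, zero_mul, mul_zero]
        intro h
        apply hds
        have e1 : d ∣ d * (n - 1 - j) := Dvd.intro _ rfl
        have e2 := (Nat.dvd_add_right e1).2 h
        have e3 : d * (n - 1 - j) + (r + (s - d * (n - 1 - j))) = r + s := by omega
        rwa [e3] at e2
    · refine Finset.sum_eq_zero fun j hj => ?_
      rw [Finset.mem_range] at hj
      have h4 := hle j
      have h6 : m - 2 * (d * (n - 1 - j)) = 2 * (s - d * (n - 1 - j)) + 1 := by omega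
      rw [if_pos (by omega), h6, hodd _ (by omega), mul_zero]
  -- the coefficient of degree `2 d (n - 1 - j) + 1`
  have hfin := zero_of p K eta d r D _ hM hMp h3 V hVX hvan (2 * (d * (n - 1 - j)) + 1)
    (by have := hle j; omega)
  set S : K := ∑ j ∈ range d, eta ^ ((2 * r + 1) * j) with hS
  have h20 : (2 : K) ≠ 0 := by
    intro h
    have h' : ((2 : ℕ) : K) = 0 := by exact_mod_cast h
    rw [CharP.cast_eq_zero_iff K p] at h'
    have := Nat.le_of_dvd (by norm_num) h'
    omega
  have hinj : ∀ i, i < n → i ≠ j → d * (n - 1 - i) ≠ d * (n - 1 - j) := by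
    intro i hi hij h
    have := Nat.eq_of_mul_eq_mul_left hd h
    omega
  have e1 : coeff (2 * (d * (n - 1 - j)) + 1) (X * V) = v j := by
    rw [coeff_succ_X_mul]
    have := coeff_V_mul n d v 1 (2 * (d * (n - 1 - j)))
    rw [mul_one] at this
    rw [hVdef, this, Finset.sum_eq_single j]
    · rw [if_pos le_rfl, Nat.sub_self, coeff_one, if_pos rfl, mul_one]
    · intro i hi hij
      rw [Finset.mem_range] at hi
      have := hinj i hi hij
      split_ifs with h
      · rw [coeff_one, if_neg (by omega), mul_zero]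
      · rw [mul_zero]
    · intro h; exact absurd (Finset.mem_range.2 hj) h
  have e2 : coeff (2 * (d * (n - 1 - j)) + 1) (V * GG p eta d r) = v j * (S * 2⁻¹) := by
    rw [hVdef, coeff_V_mul, Finset.sum_eq_single j]
    · rw [if_pos (by omega), show 2 * (d * (n - 1 - j)) + 1 - 2 * (d * (n - 1 - j)) = 1 by omega,
        coeff_GG, cc_one p hp3]
      congr 2
      rw [pow_one, map_mul, map_neg, map_inv₀, map_sub, map_one, map_ofNat]
      ring
    · intro i hi hij
      rw [Finset.mem_range] at hi
      have := hinj i hi hij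
      split_ifs with h
      · rw [show 2 * (d * (n - 1 - j)) + 1 - 2 * (d * (n - 1 - i)) =
          2 * (d * (n - 1 - j) - d * (n - 1 - i)) + 1 by omega, hodd _ (by omega), mul_zero]
      · rw [mul_zero]
    · intro h; exact absurd (Finset.mem_range.2 hj) h
  rw [e1, e2] at hfin
  have hgeom : S * (eta ^ (2 * r + 1) - 1) = -2 := by
    have hg := geom_sum_mul (eta ^ (2 * r + 1)) d
    have : ∑ j ∈ range d, (eta ^ (2 * r + 1)) ^ j = S := by
      rw [hS]
      refine Finset.sum_congr rfl (fun j _ => ?_)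
      rw [← pow_mul]
    rw [this, ← pow_mul, mul_comm (2 * r + 1) d, pow_mul, h1] at hg
    rw [hg, Odd.neg_one_pow ⟨r, rfl⟩]
    norm_num
  have hS0 : S ≠ 0 := by
    intro h
    rw [h, zero_mul] at hgeom
    exact h20 (by linear_combination hgeom)
  have h22 : (2 : K) * 2⁻¹ = 1 := mul_inv_cancel₀ h20
  have h4 : S * (v j) = 0 := by linear_combination (-2 : K) * hfin + (v j * S) * h22
  exact (mul_eq_zero.1 h4).resolve_left hS0

end Pool.Agent.Q146.RI
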