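import Pool.Agent.H582R5.RP.Core2
import Pool.Agent.Q39.HB.Core

/-!
# Sections of the series of the numbers `(1 - 2^k) B_k / k!` modulo `p`
-/

set_option autoImplicit false

open Finset PowerSeries

namespace Pool.Agent.Q146.RI

open Pool.Agent.H582R5.RP

variable {K : Type} [Field K]

/-- a polynomial of degree at most `D`, as a power series -/
noncomputable def pol (D : ℕ) (c : ℕ → K) : PowerSeries K :=
  ∑ i ∈ range (D + 1), C (c i) * X ^ i

lemma coeff_pol (D : ℕ) (c : ℕ → K) (m : ℕ) : coeff m (pol D c) = if m ≤ D then c m else 0 := by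
  rw [pol, map_sum]
  simp_rw [coeff_C_mul, coeff_X_pow]
  simp only [mul_ite, mul_one, mul_zero]
  rw [Finset.sum_ite_eq (range (D + 1)) m]
  simp only [Finset.mem_range, Nat.lt_succ_iff]

lemma pol_of (D : ℕ) (f : PowerSeries K) (hf : ∀ m, D < m → coeff m f = 0) :
    pol D (fun i => coeff i f) = f := by
  ext m
  rw [coeff_pol]
  split_ifs with h
  · rfl
  · rw [hf m (by omega)]

lemma fact_pol (p : ℕ) [Fact p.Prime] [CharP K p] (D : ℕ) (c : ℕ → K) (l : K) (n : ℕ) (hn : n < p) :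
    (n.factorial : K) * coeff n (ee l * pol D c) = ∑ i ∈ range (D + 1), c i * SS i l n := by
  rw [pol, Finset.mul_sum, map_sum, Finset.mul_sum]
  refine Finset.sum_congr rfl (fun i _ => ?_)
  rw [← coeff_ee_X p l i n hn, mul_left_comm, coeff_C_mul]
  ring

/-- the series of the `(1 - 2^k) B_k / k!` -/
noncomputable def tt (p : ℕ) [Fact p.Prime] [Algebra (ZMod p) K] : PowerSeries K :=
  PowerSeries.mk (fun n => algebraMap (ZMod p) K ((1 - 2 ^ n) * Pool.Agent.H332R2.cc p n))

lemma tt_rec (p : ℕ) [Fact p.Prime] [Algebra (ZMod p) K] (N : ℕ) (hN : N + 1 ≤ p) :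
    qm K N ((ee 1 + 1) * tt p) = qm K N X := by
  have h := Pool.Agent.Q39.HB.rec_G (p := p)
  rw [X_pow_dvd_iff] at h
  rw [qm_eq_iff]
  intro n hn
  have h1 := h n (by omega)
  rw [map_sub, sub_eq_zero] at h1
  have h2 := congrArg (algebraMap (ZMod p) K) h1
  have e1 : algebraMap (ZMod p) K (coeff n (X : PowerSeries (ZMod p))) =
      coeff n (X : PowerSeries K) := by
    rw [coeff_X, coeff_X]
    split_ifs <;> simp
  rw [e1] at h2
  rw [← h2, coeff_mul, coeff_mul, map_sum]
  refine Finset.sum_congr rfl (fun x _ => ?_)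
  rw [map_mul]
  congr 1
  · rw [map_add, map_add, map_add, Pool.Agent.Q39.HB.coeff_Ex, ee, coeff_mk, coeff_one, coeff_one,
      map_inv₀, map_natCast, one_pow, one_mul]
    congr 1
    split_ifs <;> simp
  · rw [tt, coeff_mk, Pool.Agent.Q39.HB.coeff_Gs]

lemma tt_rec' (p : ℕ) [Fact p.Prime] [Algebra (ZMod p) K] (N : ℕ) (hN : N + 1 ≤ p) (a : K) :
    (qm K N (ee a) + 1) * qm K N (rescale a (tt p)) = qm K N (C a * X) := by
  have h := tt_rec (K := K) p N hN
  rw [qm_eq_iff] at h
  have h1 : rescale a ((ee 1 + 1) * tt p) = (ee a + 1) * rescale a (tt p) := by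
    rw [map_mul, map_add, rescale_ee, map_one, mul_one]
  rw [← map_one (qm K N), ← map_add, ← map_mul, ← h1, qm_eq_iff]
  intro n hn
  rw [coeff_rescale, h n hn, coeff_C_mul, coeff_X]
  split_ifs with h2
  · subst h2; simp
  · simp

lemma prod_expand' (p : ℕ) [Fact p.Prime] [CharP K p] (N : ℕ) (hN : N ≤ p) (I : Finset ℕ)
    (f : ℕ → K) :
    ∏ j ∈ I, (qm K N (ee (f j)) + 1) = ∑ J ∈ I.powerset, qm K N (ee (∑ j ∈ J, f j)) := by
  classical
  rw [Finset.prod_add]
  refine Finset.sum_congr rfl (fun J hJ => ?_)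
  rw [qm_ee_sum p N hN, Finset.prod_const_one, mul_one]

/-- the section of the series -/
noncomputable def GG (p : ℕ) [Fact p.Prime] [Algebra (ZMod p) K] (eta : K) (d r : ℕ) :
    PowerSeries K :=
  ∑ j ∈ range d, C (eta ^ (2 * r * j)) * rescale (eta ^ j) (tt p)

lemma coeff_GG (p : ℕ) [Fact p.Prime] [Algebra (ZMod p) K] (eta : K) (d r n : ℕ) :
    coeff n (GG p eta d r) = (∑ j ∈ range d, eta ^ ((2 * r + n) * j)) *
      algebraMap (ZMod p) K ((1 - 2 ^ n) * Pool.Agent.H332R2.cc p n) := by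
  rw [GG, map_sum, Finset.sum_mul]
  refine Finset.sum_congr rfl (fun j _ => ?_)
  rw [coeff_C_mul, coeff_rescale, tt, coeff_mk, ← mul_assoc]
  congr 1
  ring

/-- the exponential sum over the subsets of `I` -/
noncomputable def EE (eta : K) (I : Finset ℕ) : PowerSeries K := ∑ J ∈ I.powerset, ee (lam eta J)

lemma qm_EE (p : ℕ) [Fact p.Prime] [CharP K p] (N : ℕ) (hN : N ≤ p) (eta : K) (I : Finset ℕ) :
    qm K N (EE eta I) = ∏ j ∈ I, (qm K N (ee (eta ^ j)) + 1) := by
  rw [prod_expand' p N hN, EE, map_sum]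
  rfl

lemma key_GG (p : ℕ) [Fact p.Prime] [CharP K p] [Algebra (ZMod p) K] (N : ℕ) (hN : N + 1 ≤ p)
    (eta : K) (d r : ℕ) :
    qm K N (EE eta (range d)) * qm K N (GG p eta d r) =
      ∑ j ∈ range d, qm K N (C (eta ^ (2 * r * j) * eta ^ j)) * qm K N X *
        qm K N (EE eta ((range d).erase j)) := by
  rw [qm_EE p N (by omega), GG, map_sum, Finset.mul_sum]
  refine Finset.sum_congr rfl (fun j hj => ?_)
  rw [qm_EE p N (by omega),
    ← Finset.mul_prod_erase (range d) (fun j => qm K N (ee (eta ^ j)) + 1) hj]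
  rw [map_mul (qm K N), map_mul C, map_mul (qm K N)]
  have h := tt_rec' (K := K) p N hN (eta ^ j)
  rw [map_mul (qm K N)] at h
  calc (qm K N (ee (eta ^ j)) + 1) * (∏ x ∈ (range d).erase j, (qm K N (ee (eta ^ x)) + 1)) *
        (qm K N (C (eta ^ (2 * r * j))) * qm K N (rescale (eta ^ j) (tt p)))
      = qm K N (C (eta ^ (2 * r * j))) * (∏ x ∈ (range d).erase j, (qm K N (ee (eta ^ x)) + 1)) *
        ((qm K N (ee (eta ^ j)) + 1) * qm K N (rescale (eta ^ j) (tt p))) := by ring
    _ = _ := by rw [h]; ring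

/-- the exponential polynomial `E A - ∑ S_j B E_j` -/
noncomputable def FF (eta : K) (d r D : ℕ) (a b : ℕ → K) : PowerSeries K :=
  EE eta (range d) * pol D a -
    ∑ j ∈ range d, C (eta ^ (2 * r * j) * eta ^ j) * (EE eta ((range d).erase j) * pol D b)

lemma qm_FF (p : ℕ) [Fact p.Prime] [CharP K p] [Algebra (ZMod p) K] (N : ℕ) (hN : N + 1 ≤ p)
    (eta : K) (d r D : ℕ) (V : PowerSeries K)
    (hV : ∀ m, D < m → coeff m (X * V) = 0)
    (hvan : ∀ n, D < n → n < N → coeff n (V * GG p eta d r) = 0) :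
    qm K N (FF eta d r D (fun i => coeff i (V * GG p eta d r)) (fun i => coeff i (X * V))) = 0 := by
  have hA : qm K N (pol D (fun i => coeff i (V * GG p eta d r))) = qm K N V * qm K N (GG p eta d r) := by
    rw [← map_mul, qm_eq_iff]
    intro n hn
    rw [coeff_pol]
    split_ifs with h
    · rfl
    · rw [hvan n (by omega) hn]
  have hB : pol D (fun i => coeff i (X * V)) = X * V := pol_of D _ hV
  have hkey := key_GG (K := K) p N hN eta d r
  rw [FF, map_sub, map_mul, hA, map_sum, hB]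
  have e1 : ∑ x ∈ range d, (qm K N) (C (eta ^ (2 * r * x) * eta ^ x) *
      (EE eta ((range d).erase x) * (X * V))) = qm K N V *
      ∑ j ∈ range d, qm K N (C (eta ^ (2 * r * j) * eta ^ j)) * qm K N X *
        qm K N (EE eta ((range d).erase j)) := by
    rw [Finset.mul_sum]
    refine Finset.sum_congr rfl (fun j _ => ?_)
    rw [map_mul (qm K N) (C _) (EE _ _ * (X * V)), map_mul (qm K N) (EE _ _) (X * V),
      map_mul (qm K N) X V]
    ring
  rw [e1, ← hkey]
  ring

/-- nonzero-frequency part -/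
noncomputable def yy (eta : K) (d r D : ℕ) (a b : ℕ → K) : ℕ → K :=
  (∑ J ∈ (range d).powerset.erase ∅, ∑ i ∈ range (D + 1), a i • SS i (lam eta J))
    - ∑ j ∈ range d, (eta ^ (2 * r * j) * eta ^ j) •
        ∑ J ∈ ((range d).erase j).powerset.erase ∅, ∑ i ∈ range (D + 1), b i • SS i (lam eta J)

/-- zero-frequency part -/
noncomputable def zz (eta : K) (d r D : ℕ) (a b : ℕ → K) : ℕ → K :=
  (∑ i ∈ range (D + 1), a i • SS i (0 : K))
    - ∑ j ∈ range d, (eta ^ (2 * r * j) * eta ^ j) • ∑ i ∈ range (D + 1), b i • SS i (0 : K)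

lemma fact_EE (p : ℕ) [Fact p.Prime] [CharP K p] (D : ℕ) (c : ℕ → K) (eta : K) (I : Finset ℕ)
    (n : ℕ) (hn : n < p) :
    (n.factorial : K) * coeff n (EE eta I * pol D c) =
      (∑ i ∈ range (D + 1), c i • SS i (0 : K)) n +
        (∑ J ∈ I.powerset.erase ∅, ∑ i ∈ range (D + 1), c i • SS i (lam eta J)) n := by
  classical
  rw [EE, Finset.sum_mul, map_sum, Finset.mul_sum]
  have hmem : ∅ ∈ I.powerset := by simp
  rw [← Finset.add_sum_erase _ _ hmem, lam_empty, fact_pol p D c 0 n hn]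
  congr 1
  · simp only [Finset.sum_apply, Pi.smul_apply, smul_eq_mul]
  · rw [Finset.sum_apply]
    refine Finset.sum_congr rfl (fun J _ => ?_)
    rw [fact_pol p D c _ n hn]
    simp only [Finset.sum_apply, Pi.smul_apply, smul_eq_mul]

lemma fact_FF (p : ℕ) [Fact p.Prime] [CharP K p] (eta : K) (d r D : ℕ) (a b : ℕ → K) (n : ℕ)
    (hn : n < p) :
    (n.factorial : K) * coeff n (FF eta d r D a b) = zz eta d r D a b n + yy eta d r D a b n := by
  classical
  rw [FF, map_sub, mul_sub, fact_EE p D a eta (range d) n hn, zz, yy, map_sum, Finset.mul_sum]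
  have e1 : ∀ j ∈ range d, (n.factorial : K) * coeff n (C (eta ^ (2 * r * j) * eta ^ j) *
      (EE eta ((range d).erase j) * pol D b)) =
      (eta ^ (2 * r * j) * eta ^ j) * (∑ i ∈ range (D + 1), b i • SS i (0 : K)) n +
      (eta ^ (2 * r * j) * eta ^ j) * (∑ J ∈ ((range d).erase j).powerset.erase ∅,
        ∑ i ∈ range (D + 1), b i • SS i (lam eta J)) n := by
    intro j _
    rw [coeff_C_mul, mul_left_comm, fact_EE p D b eta _ n hn]
    ring
  rw [Finset.sum_congr rfl e1, Finset.sum_add_distrib]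
  simp only [Pi.sub_apply, Pi.smul_apply, Finset.sum_apply, smul_eq_mul]
  ring

end Pool.Agent.Q146.RI
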